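import Pool.Agent.Q94.RLE

/-!
# Radial approaches with radii decreasing in the index need not converge almost everywhere

`f = ∏_n exp(-a_n (1 + z_n^{q_n})/(1 - z_n^{q_n}))`, arranged in blocks; in block `j` there are
`2^{L_j}` variables with equal coefficients of total mass `4^{-j}`, and the exponents `q_n`
decrease so fast inside a block that arbitrary levels `r_n^{q_n} ∈ {1/2, 3/4, …}` give radii
decreasing in `n`. `|f| = 1` a.e. while for a.e. point and all large `k` the approach gives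
`|f(r_k e^{iθ})| ≤ 1/e`.
-/

open Filter Topology MeasureTheory Q94.RL

theorem Pool.Agent.Results.MP_919c6d_an.Fails.result :
    ∃ f : Ω → ℂ, MemHinf f ∧ ∀ᵐ θ ∂m, ∃ r : ℕ → ℕ → ℝ,
      (∀ k n, 0 ≤ r k n ∧ r k n < 1) ∧ (∀ k, {n | r k n ≠ 0}.Finite) ∧
      (∀ n, Monotone fun k => r k n) ∧ (∀ n, Tendsto (fun k => r k n) atTop (𝓝 1)) ∧
      (∀ k, Antitone (r k)) ∧
      ¬ Tendsto (fun k => radial f (r k) θ) atTop (𝓝 (f θ)) :=
  main_dep
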